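import Pool.Agent.H.MP_27ff1b_co.F

namespace Pool.Agent.Results.MP_27ff1b_co.Lines

theorem result (d : ℕ) (α : Type) [Fintype α] (F : SimpleGraph α) (hF : F.IsAcyclic) :
    ∃ f : ℕ → ℕ, ∀ (V : Type) [Fintype V] (G : SimpleGraph V)
      (l : V → AffineSubspace ℝ (EuclideanSpace ℝ (Fin d))),
      Function.Injective l →
      (∀ v, Module.finrank ℝ (l v).direction = 1) →
      (∀ u v, G.Adj u v ↔ u ≠ v ∧ ∃ x, x ∈ l u ∧ x ∈ l v) →
      IsEmpty (F ↪g G) →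
      G.chromaticNumber ≤ (f G.cliqueNum : ℕ∞) := by
  obtain ⟨f, hf⟩ := Pool.Agent.H.MP_27ff1b_co.main F hF
  exact ⟨f, fun V _ G l h1 h2 h3 h4 => hf _ V G l h1 h2 h3 h4⟩

end Pool.Agent.Results.MP_27ff1b_co.Lines
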